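import Pool.Agent.Helper36.VC.St

set_option autoImplicit false

/-! Project VC (helper36), MP_60edf5_lc: MODULE FC. -/

open Cardinal Ordinal Set Filter

universe u

namespace Pool.Agent.Helper72.VC

open Pool.Agent.Helper65.GS Pool.Agent.Helper36.VC

theorem pFC : StFC.{u} := by
  intro κ a ha hpow
  have hcard : #(a.ToType → a.ToType) ≤ #κ.ord.ToType := by
    rw [mk_toType, card_ord]
    have h1 : #(a.ToType → a.ToType) = a.card ^ a.card := by
      rw [← mk_toType a]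
      exact (Cardinal.power_def _ _).symm
    rw [h1, Cardinal.power_self_eq]
    · exact hpow
    · have h2 := Ordinal.card_le_card ha.le
      rwa [Ordinal.card_omega0] at h2
  obtain ⟨j⟩ := (Cardinal.le_def _ _).1 hcard
  have h0 : 0 < a := lt_of_le_of_lt bot_le ha
  have : Nonempty a.ToType := ⟨ToType.mk ⟨0, h0⟩⟩
  refine ⟨fun i m => if hi : i < κ.ord then if hm : m < a then
    ((Function.invFun j (ToType.mk ⟨i, hi⟩)) (ToType.mk ⟨m, hm⟩)).toOrd else 0 else 0, ?_⟩
  intro y hy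
  refine ⟨1, lt_trans Ordinal.one_lt_omega0 ha,
    fun _ => ((j fun e => ToType.mk ⟨y e.toOrd, hy _ e.toOrd.2⟩).toOrd : Ordinal.{u}),
    fun n _ => (j fun e => ToType.mk ⟨y e.toOrd, hy _ e.toOrd.2⟩).toOrd.2, ?_⟩
  intro e he
  refine ⟨0, zero_lt_one, ?_⟩
  have h3 : ((j fun e => ToType.mk ⟨y e.toOrd, hy _ e.toOrd.2⟩).toOrd : Ordinal.{u}) < κ.ord :=
    (j fun e => ToType.mk ⟨y e.toOrd, hy _ e.toOrd.2⟩).toOrd.2
  simp only [dif_pos h3, dif_pos he]
  have h4 : (ToType.mk ⟨((j fun e => ToType.mk ⟨y e.toOrd, hy _ e.toOrd.2⟩).toOrd : Ordinal.{u}), h3⟩ : κ.ord.ToType) =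
      j fun e => ToType.mk ⟨y e.toOrd, hy _ e.toOrd.2⟩ := by
    exact ToType.mk.apply_symm_apply _
  rw [h4, Function.leftInverse_invFun j.injective]
  simp only [ToType.toOrd, OrderIso.symm_apply_apply]

end Pool.Agent.Helper72.VC
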